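import Pool.Agent.H886.Exp.TwoGen

/-!
# Locally geometric sections of curves with two independent units, over number fields with at most
two archimedean places

`K` is a number field with at most two archimedean places: `ℚ`, a quadratic field, a cubic field that
is not totally real, or a totally complex quartic field. `F` is the function field of a smooth curve
`U` over `K`, `C` the set of the local rings of the closed points of `U`, `Ω` an algebraic closure of
`F`, and `unramified F Ω C` the maximal extension of `F` in `Ω` that is unramified over `U` (so that
its Galois group over `F` is the fundamental group of `U`). `GalSection K F (unramified F Ω C) B` is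
the type of the sections of `π₁(U) → Gal(B/K)`, where `B` is an algebraic closure of `K`.

The curve has units `x 0, …, x (n-1)`, which define a morphism to the torus `G_m^n`. Two of them are
multiplicatively independent modulo constants; in other words, the image of `U` is not contained in a
translate of a subtorus of dimension one. An example is the line minus `0`, `1` and `∞`, with the
units `t` and `1 - t`.
-/

set_option autoImplicit false

namespace Pool.Agent.Results.MP_2f3286_ag.SectionsOfCurvesWithUnits

open Polynomial IsDedekindDomain
open Pool.Agent.TH954 (GalSection Plc)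
open Pool.Agent.W620.SC (unramified)
open scoped NumberField

section defs

variable {K F M Ω B : Type} [Field K] [Field F] [Field M] [Field Ω] [Field B] [Algebra F M]
  [Algebra K M] [Algebra F Ω] [Algebra K Ω] [Algebra K B] {n : ℕ}

/-- `F` is a function field of one variable over `K` -/
def OneVariable (K F : Type) [Field K] [Field F] [Algebra K F] : Prop :=
  ∃ t : F, Transcendental K t ∧ Algebra.IsAlgebraic (IntermediateField.adjoin K {t}) F

/-- two of the functions `x i` are multiplicatively independent modulo constants: no product of
powers of the two, except the trivial one, is algebraic over `K` -/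
def TwoIndependent (K : Type) [Field K] [Algebra K F] (x : Fin n → F) : Prop :=
  ∃ i j, ∀ a b : ℤ, (a ≠ 0 ∨ b ≠ 0) → Transcendental K (x i ^ a * x j ^ b)

/-- the functions `x i` are units on the curve with the local rings `C` -/
def AreUnits (C : Set (ValuationSubring F)) (x : Fin n → F) : Prop :=
  ∀ O ∈ C, ∀ i, x i ∈ O ∧ (x i)⁻¹ ∈ O

/-- The section `s` is given over the extension `L` of `K` by the place `P` of `M` with values in the
algebraic closure `A` of `L`: whenever `σ ∈ Gal(A/L)` and `g ∈ Gal(B/K)` are compatible on `B`, the
place turns `s g` into `σ`. -/
def Compatible (s : GalSection K F M B) (L : Type) {A : Type} [Field L] [Field A] [Algebra L A]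
    [Algebra K A] (P : Plc K M A) : Prop :=
  ∀ (σ : A ≃ₐ[L] A) (g : B ≃ₐ[K] B),
    (∀ z c, P.val (s.j z) c → P.val (s.j (g z)) (σ c)) →
    ∀ y c, P.val y c → P.val (s.s g y) (σ c)

/-- The section `s` is given over each completion `K_v` of the number field `K` by a point, at which
the functions `x i` have values `X v i` in `K_v`, which are neither zero nor infinite. The points are
integral at almost all `v`, or at least in contact with few zeros and poles of the `x i`: for some
positive `N` and all but finitely many `v`, the orders of the `X v i` are zero or not divisible by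
`N` (for example, of absolute value at most `N - 1`). -/
structure LocalPoints [NumberField K] (s : GalSection K F M B) (x : Fin n → F) where
  /-- the points -/
  P : ∀ v : HeightOneSpectrum (𝓞 K), Plc K M (AlgebraicClosure (v.adicCompletion K))
  compatible : ∀ v, Compatible s (v.adicCompletion K) (P v)
  /-- the values of the `x i` -/
  X : ∀ v : HeightOneSpectrum (𝓞 K), Fin n → v.adicCompletion K
  val : ∀ v i, (P v).val (algebraMap F M (x i)) (algebraMap _ _ (X v i))
  ne : ∀ v i, X v i ≠ 0
  few : ∃ N : ℕ, 0 < N ∧ ∀ᶠ v in Filter.cofinite, ∀ (i : Fin n) (k : ℤ),
    Valued.v (X v i) = WithZero.exp ((N : ℤ) * k) → k = 0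

/-- `ξ` is a rational point of the torus that lies on the closure of the image of the curve: it
satisfies all polynomial relations between the `x i` -/
def OnImage [Algebra K F] (x : Fin n → F) (ξ : Fin n → K) : Prop :=
  (∀ i, ξ i ≠ 0) ∧ ∀ G : MvPolynomial (Fin n) K, MvPolynomial.aeval x G = 0 →
    MvPolynomial.aeval ξ G = 0

/-- The section `s` has the same Kummer classes as the rational point `ξ`: for all `i` and `N`, the
function `x i / ξ i` is the `N`-th power of an element fixed by all `s g`. -/
def SameKummerClasses (s : GalSection K F M B) (x : Fin n → F) (ξ : Fin n → K) : Prop :=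
  ∀ (i : Fin n) (N : ℕ), 0 < N → ∃ w : M,
    w ^ N = algebraMap F M (x i) / algebraMap K M (ξ i) ∧ ∀ g : B ≃ₐ[K] B, s.s g w = w

end defs

/-- Let `U` be a smooth curve over a number field `K` with at most two archimedean places, and `x i`
units on `U`, two of which are multiplicatively independent modulo constants. Let `s` be a section of
`π₁(U) → Gal(B/K)` that over all completions of `K` at finite places is given by points at which the
`x i` have few zeros and poles. Then the values of the `x i` at these points are the coordinates of one
rational point `ξ` of the torus `G_m^n`, which lies on the closure of the image of `U`, and the images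
of `s` and `ξ` in the fundamental group of the torus are the same. -/
theorem result (K F Ω B : Type) [Field K] [NumberField K]
    (hK : Fintype.card (NumberField.InfinitePlace K) ≤ 2) [Field F] [Field Ω] [Field B]
    [Algebra K F] [Algebra F Ω] [Algebra K Ω] [IsScalarTower K F Ω] [IsAlgClosure F Ω]
    [Algebra K B] [IsAlgClosure K B] (hF : OneVariable K F)
    (C : Set (ValuationSubring F)) (hC : ∀ O ∈ C, ∀ c : K, algebraMap K F c ∈ O)
    {n : ℕ} (x : Fin n → F) (hx0 : ∀ i, x i ≠ 0) (hx : TwoIndependent K x)
    (units : AreUnits C x) (s : GalSection K F (unramified F Ω C) B) (pts : LocalPoints s x) :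
    ∃ ξ : Fin n → K, (∀ v i, pts.X v i = algebraMap K (v.adicCompletion K) (ξ i)) ∧
      OnImage x ξ ∧ SameKummerClasses s x ξ := by
  have h2 : Algebra.IsAlgebraic F Ω := IsAlgClosure.isAlgebraic
  have h5 : Algebra.IsAlgebraic F (unramified F Ω C) :=
    Algebra.IsAlgebraic.tower_bot (K := F) (L := unramified F Ω C) (A := Ω)
  obtain ⟨t, ht, hFt⟩ := hF
  obtain ⟨i, j, hind⟩ := hx
  have hxi : Transcendental K (x i) := by
    have := hind 1 0 (Or.inl one_ne_zero)
    simpa using this
  have hFi := Pool.Agent.H886.Exp.alg_exchange ht hFt hxi
  obtain ⟨P, hP, X, hX, hne, N, hN, few⟩ := pts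
  obtain ⟨ξ, h1, h3, h4, h6⟩ := Pool.Agent.H886.Exp.two_gen hK s x hx0 i j hind hFi
    (fun l => Pool.Agent.H886.Exp.roots_unit C hC (x l) (hx0 l) (fun O hO => units O hO l) s)
    P hP X hX hne N hN few
  exact ⟨ξ, h3, ⟨h1, h4⟩, h6⟩

end Pool.Agent.Results.MP_2f3286_ag.SectionsOfCurvesWithUnits
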